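import Pool.Agent.H891.Carpet.Final
import Pool.Agent.H891.Carpet.A
import Pool.Agent.H891.Carpet.L1
import Pool.Agent.H891.Carpet.LB
import Pool.Agent.H891.Carpet.H
import Pool.Agent.H891.Carpet.H0
import Pool.Agent.H891.Carpet.TYP
import Pool.Agent.H891.Carpet.B
import Pool.Agent.H891.Carpet.E
import Pool.Agent.H891.Carpet.T3

/-!
# MP_0a98f6_an: of the four dimension orderings (a)-(d) only (c) occurs for mixed-type carpets

(a) dim_L = dim_H < dim_B = dim_A, (b) dim_L = dim_H < dim_B < dim_A and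
(d) dim_L < dim_H < dim_B = dim_A are impossible; (c) dim_L < dim_H = dim_B < dim_A occurs.
-/

namespace Pool.Agent.Results.MP_0a98f6_an.OnlyC

open Pool.Agent.H891.Carp
open scoped ENNReal

/-- Every attractor F of a mixed-type carpet has a box dimension D, and none of the orderings
(a), (b), (d) holds; some mixed-type carpet satisfies (c). -/
theorem result :
    (∀ (Q : Carpet) (F : Set Plane), Q.IsAttractor F → Q.Mixed → ∃ D : ℝ≥0∞, IsBoxDim F D ∧
      ¬ (lowerDim F = dimH F ∧ dimH F < D ∧ D = assouadDim F) ∧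
      ¬ (lowerDim F = dimH F ∧ dimH F < D ∧ D < assouadDim F) ∧
      ¬ (lowerDim F < dimH F ∧ dimH F < D ∧ D = assouadDim F)) ∧
    (∃ (Q : Carpet) (F : Set Plane) (D : ℝ≥0∞), Q.IsAttractor F ∧ Q.Mixed ∧ IsBoxDim F D ∧
      lowerDim F < dimH F ∧ dimH F = D ∧ D < assouadDim F) := by
  have hH : S_H := H H0 TYP
  exact final U LB (T1 U A hH) (T2 U L hH) (T3 U A L hH B E)

end Pool.Agent.Results.MP_0a98f6_an.OnlyC
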